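import Pool.Agent.Lib.MP_fc2ced_ag.T.Main

/-! The motives with compact support of the hypergeometric varieties
`x₁ ⋯ xₙ = a`, `yⱼ ^ N * ∏ᵢ (1 - xᵢ) ^ b j i = 1` are Schur-finite. -/

namespace Pool.Agent.Results.MP_fc2ced_ag.Hypergeometric

open Pool.Agent.Lib.MP_fc2ced_ag.K MvPolynomial

/-- The variables are `T = X none`, `xᵢ = X (some (.inl i))` and `yⱼ = X (some (.inr j))`; the
polynomials are the homogenized equations of the variety. -/
theorem result (k : Type) [Field k] (N : ℕ) (hN : 1 < N) (ζ : k) (hζ : IsPrimitiveRoot ζ N)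
    (n r : ℕ) (b : Fin r → Fin n → ℕ) (h0 : ∀ i, ∃ j, b j i ≠ 0)
    (hb : ∀ t : Fin r → ZMod N,
      {v : ZMod N | v ≠ 0 ∧ Odd {i | ∑ j, t j * (b j i : ZMod N) = v}.ncard}.ncard ≤ 2)
    (a : k) (ha : a ≠ 0) :
    SchurFinite (k := k) (σ := Fin n ⊕ Fin r) fun o : Option (Fin r) =>
      o.elim (∏ i, X (some (.inl i)) - C a * X none ^ n) fun j =>
        X (some (.inr j)) ^ N * ∏ i, (X none - X (some (.inl i))) ^ b j i -
          X none ^ (N + ∑ i, b j i) :=
  Pool.Agent.Lib.MP_fc2ced_ag.T.main hN hζ b h0 hb ha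

end Pool.Agent.Results.MP_fc2ced_ag.Hypergeometric
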