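import Pool.Agent.Lib.MP_fc2ced_ag.NQSys

namespace Pool.Agent.Results.MP_fc2ced_ag.QuadraticAS

open Pool.Agent.Lib.MP_fc2ced_ag.Naive MvPolynomial

universe u

/-- The `(ℤ/p)^r`-cover `y_s ^ p - y_s = f_s(x)` of affine `n`-space is Schur-finite when every
`f_s` has `p`-weight degree at most two. -/
theorem result (k : Type u) [Field k] [PerfectField k] (p : ℕ) [Fact p.Prime] [CharP k p]
    (n r : ℕ) (f : Fin r → MvPolynomial (Fin n) k)
    (hf : ∀ s, ∀ d ∈ (f s).support, ∑ i, (Nat.digits p (d i)).sum ≤ 2) :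
    SchurFinite k (MvPolynomial (Fin n ⊕ Fin r) k ⧸ Ideal.span (Set.range fun s : Fin r =>
      (X (Sum.inr s) ^ p - X (Sum.inr s) - rename Sum.inl (f s) :
        MvPolynomial (Fin n ⊕ Fin r) k))) := by
  have key : ∀ (O : AIC k) (x : Fin n ⊕ Fin r → O) (s : Fin r),
      aeval x (X (Sum.inr s) ^ p - X (Sum.inr s) - rename Sum.inl (f s) :
        MvPolynomial (Fin n ⊕ Fin r) k) = 0 ↔
      x (Sum.inr s) ^ p - x (Sum.inr s) = aeval (fun i => x (Sum.inl i)) (f s) := by
    intro O x s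
    rw [map_sub, map_sub, map_pow, aeval_X, aeval_rename, sub_eq_zero]
    rfl
  refine schurFinite_of_var _ (Grow.of_inj (Z := Sys p f)
    (fun O x => ⟨(fun i => x.1 (Sum.inl i), fun s => x.1 (Sum.inr s)),
      fun s => (key O x.1 s).1 (x.2 s)⟩)
    (fun O z => ⟨Sum.elim z.1.1 z.1.2, fun s => (key O _ s).2 (z.2 s)⟩) (fun _ _ _ _ => rfl)
    (fun _ _ _ _ => Subtype.ext (funext fun i => by cases i <;> rfl))
    (fun _ _ => Subtype.ext (funext fun i => by cases i <;> rfl))
    (grow_sys f fun c => grow_as_quad n _ (Submodule.sum_mem _ fun s _ =>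
      Submodule.smul_mem _ _ (mem_of_weight _ (hf s)))))

end Pool.Agent.Results.MP_fc2ced_ag.QuadraticAS
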