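import Pool.Agent.Lib.MP_fc2ced_ag.W.Main

/-! The motives with compact support of the varieties
`h (x₁ ⋯ xₙ) = 0`, `yⱼ ^ N * gⱼ (x₁ ⋯ xₙ) * ∏ᵢ (1 - xᵢ) ^ b j i = 1` are Schur-finite. -/

namespace Pool.Agent.Results.MP_fc2ced_ag.TwistedHypergeometric

open Pool.Agent.Lib.MP_fc2ced_ag.K MvPolynomial

/-- The variables are `T = X none`, `xᵢ = X (some (.inl i))` and `yⱼ = X (some (.inr j))`; the
polynomials are the homogenized equations of the variety. -/
theorem result (k : Type) [Field k] (N : ℕ) (hN : 1 < N) (ζ : k) (hζ : IsPrimitiveRoot ζ N)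
    (n r : ℕ) (b : Fin r → Fin n → ℕ) (h0 : ∀ i, ∃ j, b j i ≠ 0)
    (hb : ∀ t : Fin r → ZMod N,
      {v : ZMod N | v ≠ 0 ∧ Odd {i | ∑ j, t j * (b j i : ZMod N) = v}.ncard}.ncard ≤ 2)
    (h : Polynomial k) (hh : h.Splits) (g : Fin r → Polynomial k) (hg : ∀ j, (g j).Splits) :
    SchurFinite (k := k) (σ := Fin n ⊕ Fin r) fun o : Option (Fin r) =>
      o.elim (aeval ![∏ i, X (some (.inl i)), X none ^ n] (h.homogenize h.natDegree)) fun j =>
        X (some (.inr j)) ^ N *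
            aeval ![∏ i, X (some (.inl i)), X none ^ n] ((g j).homogenize (g j).natDegree) *
            ∏ i, (X none - X (some (.inl i))) ^ b j i -
          X none ^ (N + n * (g j).natDegree + ∑ i, b j i) :=
  Pool.Agent.Lib.MP_fc2ced_ag.T.main_tw hN hζ b h0 hb hh hg

end Pool.Agent.Results.MP_fc2ced_ag.TwistedHypergeometric
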